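import Mathlib

/-!
# Flowers and the determinant of R-disjoint graphs: combinatorics

Matchings are encoded by involutions.
-/

set_option autoImplicit false
set_option linter.unusedSectionVars false
set_option linter.unusedVariables false
set_option linter.unusedSimpArgs false

namespace Pool.Agent.X185.FD

open Finset Function
open scoped Classical

variable {V : Type*} [Fintype V] {G : SimpleGraph V}

/-- A matching of `G`, encoded by the involution that exchanges the two ends of every edge of the
matching and fixes the vertices left uncovered. -/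
def IsMatching (G : SimpleGraph V) (M : V → V) : Prop :=
  (∀ v, M (M v) = v) ∧ ∀ v, M v ≠ v → G.Adj v (M v)

/-- The number of vertices left uncovered by a matching. -/
noncomputable def uncovered (M : V → V) : ℕ := (univ.filter fun v => M v = v).card

/-- A maximum matching: it leaves as few vertices uncovered as possible. -/
def IsMaximum (G : SimpleGraph V) (M : V → V) : Prop :=
  IsMatching G M ∧ ∀ N, IsMatching G N → uncovered M ≤ uncovered N

/-- `p 0, p 1, ..., p (2 n)` is a path of `G` that is alternating with respect to `M`, and `p 0`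
is left uncovered by `M`. -/
structure Alt (G : SimpleGraph V) (M : V → V) (p : ℕ → V) (n : ℕ) : Prop where
  inj : Set.InjOn p (Set.Iic (2 * n))
  start : M (p 0) = p 0
  mat : ∀ j < n, M (p (2 * j + 1)) = p (2 * j + 2)
  adj : ∀ i < 2 * n, G.Adj (p i) (p (i + 1))

/-- The edges of the closed path `c a, c (a + 1), ..., c b, c a`. -/
def cycleEdges (c : ℕ → V) (a b : ℕ) : Set (Sym2 V) :=
  {e | (∃ i, a ≤ i ∧ i < b ∧ e = s(c i, c (i + 1))) ∨ e = s(c b, c a)}

/-- `C` is the edge set of an odd cycle of `G`. -/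
def IsOddCycle (G : SimpleGraph V) (C : Set (Sym2 V)) : Prop :=
  ∃ (t : ℕ) (c : ℕ → V), 1 ≤ t ∧ Set.InjOn c (Set.Iic (2 * t)) ∧
    (∀ i < 2 * t, G.Adj (c i) (c (i + 1))) ∧ G.Adj (c (2 * t)) (c 0) ∧
    C = cycleEdges c 0 (2 * t)

/-- An `M`-flower whose blossom has the edge set `C`: an alternating path
`f 0, ..., f (2 (l + t))` from the uncovered vertex `f 0` whose last vertex is adjacent to
`f (2 l)`.  The stem is `f 0, ..., f (2 l)`, the blossom is `f (2 l), ..., f (2 (l + t))`, and
its base is `f (2 l)`. -/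
structure IsFlower (G : SimpleGraph V) (M : V → V) (f : ℕ → V) (l t : ℕ) (C : Set (Sym2 V)) :
    Prop where
  pos : 1 ≤ t
  alt : Alt G M f (l + t)
  close : G.Adj (f (2 * (l + t))) (f (2 * l))
  edges : C = cycleEdges f (2 * l) (2 * (l + t))

/-- The reach set of an odd cycle. -/
def reach (G : SimpleGraph V) (C : Set (Sym2 V)) : Set V :=
  {v | ∃ (M : V → V) (f : ℕ → V) (l t : ℕ), IsMaximum G M ∧ IsFlower G M f l t C ∧
    ∃ i ≤ 2 * (l + t), f i = v}

/-- `R`-disjoint graphs. -/
def RDisjoint (G : SimpleGraph V) : Prop :=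
  (∃ C, IsOddCycle G C) ∧ (∀ C, IsOddCycle G C → (reach G C).Nonempty) ∧
    ∀ C C', IsOddCycle G C → IsOddCycle G C' → C ≠ C' → Disjoint (reach G C) (reach G C')

/-- the vertices of a set of edges -/
def cyc (C : Set (Sym2 V)) : Set V := {v | ∃ e ∈ C, v ∈ e}

lemma mem_cyc {c : ℕ → V} {a b : ℕ} (hab : a < b) {v : V} :
    v ∈ cyc (cycleEdges c a b) ↔ ∃ i, a ≤ i ∧ i ≤ b ∧ c i = v := by
  constructor
  · rintro ⟨e, he | he, hv⟩
    · obtain ⟨i, h1, h2, rfl⟩ := he
      rw [Sym2.mem_iff] at hv
      rcases hv with rfl | rfl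
      · exact ⟨i, h1, h2.le, rfl⟩
      · exact ⟨i + 1, by omega, by omega, rfl⟩
    · rw [he, Sym2.mem_iff] at hv
      rcases hv with rfl | rfl
      · exact ⟨b, hab.le, le_rfl, rfl⟩
      · exact ⟨a, le_rfl, hab.le, rfl⟩
  · rintro ⟨i, h1, h2, rfl⟩
    rcases h2.lt_or_eq with h2 | h2
    · exact ⟨_, Or.inl ⟨i, h1, h2, rfl⟩, Sym2.mem_mk_left _ _⟩
    · subst h2
      exact ⟨_, Or.inr rfl, Sym2.mem_mk_left _ _⟩

lemma cycleEdges_shift (c : ℕ → V) (a b d : ℕ) :
    cycleEdges (fun i => c (d + i)) a b = cycleEdges c (d + a) (d + b) := by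
  ext e
  constructor
  · rintro (⟨i, h1, h2, rfl⟩ | rfl)
    · exact Or.inl ⟨d + i, by omega, by omega, rfl⟩
    · exact Or.inr rfl
  · rintro (⟨i, h1, h2, rfl⟩ | rfl)
    · refine Or.inl ⟨i - d, by omega, by omega, ?_⟩
      have e1 : d + (i - d) = i := by omega
      have e2 : d + (i - d + 1) = i + 1 := by omega
      change s(c i, c (i + 1)) = s(c (d + (i - d)), c (d + (i - d + 1)))
      rw [e1, e2]
    · exact Or.inr rfl

section matchings
variable {M N : V → V}

lemma IsMatching.inj (hM : IsMatching G M) {x y : V} (h : M x = M y) : x = y := by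
  rw [← hM.1 x, h, hM.1 y]

lemma IsMaximum.not_adj (hM : IsMaximum G M) {x y : V} (hx : M x = x) (hy : M y = y) :
    ¬ G.Adj x y := by
  intro hadj
  have hxy : x ≠ y := hadj.ne
  have hne : ∀ v, v ≠ x → v ≠ y → M v ≠ x ∧ M v ≠ y := by
    intro v h1 h2
    exact ⟨fun h => h1 (hM.1.inj (h.trans hx.symm)), fun h => h2 (hM.1.inj (h.trans hy.symm))⟩
  have hM' : IsMatching G (fun v => Equiv.swap x y (M v)) := by
    constructor
    · intro v
      by_cases h1 : v = x
      · subst h1
        simp [hx, hy]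
      by_cases h2 : v = y
      · subst h2
        simp [hx, hy]
      obtain ⟨h3, h4⟩ := hne v h1 h2
      simp only
      rw [Equiv.swap_apply_of_ne_of_ne h3 h4, hM.1.1, Equiv.swap_apply_of_ne_of_ne h1 h2]
    · intro v hv
      by_cases h1 : v = x
      · subst h1
        simpa [hx] using hadj
      by_cases h2 : v = y
      · subst h2
        simpa [hy] using hadj.symm
      obtain ⟨h3, h4⟩ := hne v h1 h2
      simp only at hv ⊢
      rw [Equiv.swap_apply_of_ne_of_ne h3 h4] at hv ⊢
      exact hM.1.2 v hv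
  have h1 := hM.2 _ hM'
  refine absurd h1 (not_le.2 ?_)
  refine card_lt_card ⟨?_, ?_⟩
  · intro v hv
    rw [mem_filter] at hv ⊢
    refine ⟨mem_univ _, ?_⟩
    by_cases h1 : v = x
    · rw [h1, hx]
    by_cases h2 : v = y
    · rw [h2, hy]
    obtain ⟨h3, h4⟩ := hne v h1 h2
    have h5 : Equiv.swap x y (M v) = v := hv.2
    rwa [Equiv.swap_apply_of_ne_of_ne h3 h4] at h5
  · intro hsub
    have : x ∈ univ.filter (fun v => Equiv.swap x y (M v) = v) :=
      hsub (mem_filter.2 ⟨mem_univ _, hx⟩)
    rw [mem_filter] at this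
    have := this.2
    rw [hx, Equiv.swap_apply_left] at this
    exact hxy this.symm

lemma IsMaximum.slide (hM : IsMaximum G M) {x y : V} (hx : M x = x) (hadj : G.Adj x y) :
    ∃ M', IsMaximum G M' ∧ M' x = y ∧ M' y = x ∧ M' (M y) = M y ∧
      ∀ v, v ≠ x → v ≠ y → v ≠ M y → M' v = M v := by
  have hxy : x ≠ y := hadj.ne
  have hy : M y ≠ y := fun h => hM.not_adj hx h hadj
  have hyx : M y ≠ x := fun h => hxy (hM.1.inj (hx.trans h.symm))
  set τ := Equiv.swap x (M y) with hτ
  have e1 : τ (M (τ x)) = y := by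
    rw [hτ, Equiv.swap_apply_left, hM.1.1, Equiv.swap_apply_of_ne_of_ne hxy.symm hy.symm]
  have e2 : τ (M (τ y)) = x := by
    rw [hτ, Equiv.swap_apply_of_ne_of_ne hxy.symm hy.symm, Equiv.swap_apply_right]
  have e3 : τ (M (τ (M y))) = M y := by
    rw [hτ, Equiv.swap_apply_right, hx, Equiv.swap_apply_left]
  have e4 : ∀ v, v ≠ x → v ≠ y → v ≠ M y → τ (M (τ v)) = M v := by
    intro v h1 h2 h3
    have h4 : M v ≠ x := fun h => h1 (hM.1.inj (h.trans hx.symm))
    have h5 : M v ≠ M y := fun h => h2 (hM.1.inj h)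
    rw [hτ, Equiv.swap_apply_of_ne_of_ne h1 h3, Equiv.swap_apply_of_ne_of_ne h4 h5]
  refine ⟨fun v => τ (M (τ v)), ⟨⟨?_, ?_⟩, ?_⟩, e1, e2, e3, e4⟩
  · intro v
    simp only [hτ, Equiv.swap_apply_self, hM.1.1]
  · intro v hv
    simp only at hv ⊢
    by_cases h1 : v = x
    · subst h1
      rw [e1]
      exact hadj
    by_cases h2 : v = y
    · subst h2
      rw [e2]
      exact hadj.symm
    by_cases h3 : v = M y
    · subst h3
      exact absurd e3 hv
    · rw [e4 v h1 h2 h3] at hv ⊢
      exact hM.1.2 v hv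
  · intro N hN
    have : uncovered (fun v => τ (M (τ v))) = uncovered M := by
      refine card_equiv τ fun v => ?_
      simp only [mem_filter, mem_univ, true_and]
      constructor
      · intro h
        apply τ.injective
        rw [h, hτ, Equiv.swap_apply_self]
      · intro h
        rw [h, hτ, Equiv.swap_apply_self]
    rw [this]
    exact hM.2 N hN

lemma Alt.mono {p : ℕ → V} {n m : ℕ} (h : Alt G M p n) (hm : m ≤ n) : Alt G M p m where
  inj := h.inj.mono (Set.Iic_subset_Iic.2 (by omega))
  start := h.start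
  mat := fun j hj => h.mat j (by omega)
  adj := fun i hi => h.adj i (by omega)

lemma Alt.ne {p : ℕ → V} {n : ℕ} (h : Alt G M p n) {i j : ℕ} (hi : i ≤ 2 * n) (hj : j ≤ 2 * n)
    (hij : i ≠ j) : p i ≠ p j := fun he => hij (h.inj hi hj he)

lemma Alt.mat' {p : ℕ → V} {n : ℕ} (hM : IsMatching G M) (h : Alt G M p n) {j : ℕ} (hj : j < n) :
    M (p (2 * j + 2)) = p (2 * j + 1) := by
  rw [← h.mat j hj, hM.1]

lemma Alt.of_even {p : ℕ → V} {n : ℕ} (hM : IsMatching G M)
    (inj : Set.InjOn p (Set.Iic (2 * n))) (start : M (p 0) = p 0)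
    (mat : ∀ j < n, M (p (2 * j + 1)) = p (2 * j + 2))
    (adj : ∀ j < n, G.Adj (p (2 * j)) (p (2 * j + 1))) : Alt G M p n where
  inj := inj
  start := start
  mat := mat
  adj := by
    intro i hi
    rcases Nat.even_or_odd' i with ⟨j, rfl | rfl⟩
    · exact adj j (by omega)
    · have h1 := mat j (by omega)
      have h2 : M (p (2 * j + 1)) ≠ p (2 * j + 1) := by
        rw [h1]
        intro h
        have := inj (by simp only [Set.mem_Iic]; omega) (by simp only [Set.mem_Iic]; omega) h
        omega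
      have h3 := hM.2 _ h2
      rwa [h1] at h3

lemma Alt.slide {p : ℕ → V} {n : ℕ} (hM : IsMaximum G M) (h : Alt G M p n) :
    ∃ M', IsMaximum G M' ∧ M' (p (2 * n)) = p (2 * n) ∧
      (∀ j < n, M' (p (2 * j)) = p (2 * j + 1)) ∧
      ∀ v, (∀ i ≤ 2 * n, v ≠ p i) → M' v = M v := by
  induction n with
  | zero => exact ⟨M, hM, h.start, fun j hj => by omega, fun v _ => rfl⟩
  | succ n ih =>
    obtain ⟨M₁, h1, h2, h3, h4⟩ := ih (h.mono (Nat.le_succ n))
    have h5 : M₁ (p (2 * n + 1)) = p (2 * n + 2) := by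
      rw [h4 _ (fun i hi => h.ne (by omega) (by omega) (by omega))]
      exact h.mat n (Nat.lt_succ_self n)
    obtain ⟨M₂, k1, k2, k3, k4, k5⟩ := h1.slide h2 (h.adj (2 * n) (by omega))
    rw [h5] at k4 k5
    refine ⟨M₂, k1, k4, ?_, ?_⟩
    · intro j hj
      rcases (Nat.lt_succ_iff_lt_or_eq.1 hj) with hj | rfl
      · rw [k5 _ (h.ne (by omega) (by omega) (by omega)) (h.ne (by omega) (by omega) (by omega))
          (h.ne (by omega) (by omega) (by omega))]
        exact h3 j hj
      · exact k2
    · intro v hv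
      rw [k5 v (hv _ (by omega)) (hv _ (by omega)) (hv _ (by omega))]
      exact h4 v (fun i hi => hv i (by omega))

/-- exchanging two matchings on a common invariant set -/
lemma switch (hM : IsMatching G M) (hN : IsMatching G N) (K : Finset V)
    (hKM : ∀ v ∈ K, M v ∈ K) (hKN : ∀ v ∈ K, N v ∈ K) :
    IsMatching G (fun v => if v ∈ K then N v else M v) ∧
      uncovered (fun v => if v ∈ K then N v else M v) + (K.filter fun v => M v = v).card =
        uncovered M + (K.filter fun v => N v = v).card := by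
  have hKM' : ∀ v, v ∉ K → M v ∉ K := by
    intro v hv h
    have := hKM _ h
    rw [hM.1] at this
    exact hv this
  refine ⟨⟨?_, ?_⟩, ?_⟩
  · intro v
    by_cases hv : v ∈ K
    · simp [hv, hKN v hv, hN.1]
    · simp [hv, hKM' v hv, hM.1]
  · intro v hne
    by_cases hv : v ∈ K
    · simp only [hv, if_true] at hne ⊢
      exact hN.2 v hne
    · simp only [hv, if_false] at hne ⊢
      exact hM.2 v hne
  · have e1 : uncovered (fun v => if v ∈ K then N v else M v) =
        (K.filter fun v => N v = v).card + (Kᶜ.filter fun v => M v = v).card := by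
      unfold uncovered
      rw [← card_union_of_disjoint]
      · congr 1
        ext v
        by_cases hv : v ∈ K <;> simp [hv]
      · rw [Finset.disjoint_left]
        intro v h1 h2
        rw [mem_filter] at h1 h2
        exact (mem_compl.1 h2.1) h1.1
    have e2 : uncovered M =
        (K.filter fun v => M v = v).card + (Kᶜ.filter fun v => M v = v).card := by
      unfold uncovered
      rw [← card_union_of_disjoint]
      · congr 1
        ext v
        by_cases hv : v ∈ K <;> simp [hv]
      · rw [Finset.disjoint_left]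
        intro v h1 h2
        rw [mem_filter] at h1 h2
        exact (mem_compl.1 h2.1) h1.1
    omega

end matchings

section paths
variable {A B : V → V}

/-- the map used at step `i` -/
def T (A B : V → V) (i : ℕ) : V → V := if Even i then B else A

/-- the sequence `x, B x, A B x, ...` -/
def seq (A B : V → V) (x : V) : ℕ → V
  | 0 => x
  | n + 1 => T A B n (seq A B x n)

lemma T_inv (hA : ∀ v, A (A v) = v) (hB : ∀ v, B (B v) = v) (i : ℕ) (v : V) :
    T A B i (T A B i v) = v := by
  unfold T
  split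
  · exact hB v
  · exact hA v

lemma T_parity {i j : ℕ} (h : i % 2 = j % 2) : T A B i = T A B j := by
  unfold T
  have : Even i ↔ Even j := by rw [Nat.even_iff, Nat.even_iff, h]
  simp only [this]

lemma seq_ne (hA : ∀ v, A (A v) = v) (hB : ∀ v, B (B v) = v) {x : V} (hx : A x = x) {m : ℕ}
    (hm : ∀ i < m, seq A B x (i + 1) ≠ seq A B x i) :
    ∀ d, 1 ≤ d → ∀ i, i + d ≤ m → seq A B x i ≠ seq A B x (i + d) := by
  intro d
  induction d using Nat.strong_induction_on with
  | _ d ih =>
  intro hd i
  rcases Nat.even_or_odd' d with ⟨e, rfl | rfl⟩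
  · -- even difference
    induction i with
    | zero =>
      intro hi h
      have h1 : seq A B x (0 + 2 * e) = T A B (2 * e - 1) (seq A B x (2 * e - 1)) := by
        have : 0 + 2 * e = (2 * e - 1) + 1 := by omega
        rw [this]
        rfl
      have h2 : T A B (2 * e - 1) = A := by
        unfold T
        rw [if_neg]
        rw [Nat.even_iff]
        omega
      rw [h1, h2] at h
      have h3 : seq A B x (2 * e - 1) = x := by
        rw [← hA (seq A B x (2 * e - 1)), ← h]
        exact hx
      refine ih (2 * e - 1) (by omega) (by omega) 0 (by omega) ?_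
      rw [Nat.zero_add, h3]
      rfl
    | succ i ihi =>
      intro hi h
      apply ihi (by omega)
      have h1 : seq A B x (i + 1 + 2 * e) = T A B (i + 2 * e) (seq A B x (i + 2 * e)) := by
        have : i + 1 + 2 * e = (i + 2 * e) + 1 := by omega
        rw [this]
        rfl
      have h2 : T A B (i + 2 * e) = T A B i := T_parity (by omega)
      have h3 : seq A B x (i + 1) = T A B i (seq A B x i) := rfl
      rw [h1, h2, h3] at h
      rw [← T_inv hA hB i (seq A B x i), h, T_inv hA hB]
  · -- odd difference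
    intro hi h
    have h1 : seq A B x (i + (2 * e + 1)) = T A B (i + 2 * e) (seq A B x (i + 2 * e)) := rfl
    have h2 : T A B (i + 2 * e) = T A B i := T_parity (by omega)
    have h3 : seq A B x (i + 1) = T A B i (seq A B x i) := rfl
    rw [h1, h2] at h
    have h4 : seq A B x (i + 1) = seq A B x (i + 2 * e) := by
      rw [h3, h, T_inv hA hB]
    rcases Nat.eq_zero_or_pos e with rfl | he
    · exact hm i (by omega) h4
    · refine ih (2 * e - 1) (by omega) (by omega) (i + 1) (by omega) ?_
      rw [h4]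
      congr 1
      omega

lemma exists_path (hA : ∀ v, A (A v) = v) (hB : ∀ v, B (B v) = v) {x : V} (hx : A x = x) :
    ∃ (m : ℕ) (a : ℕ → V), a 0 = x ∧ Set.InjOn a (Set.Iic m) ∧
      (∀ i < m, a (i + 1) = T A B i (a i)) ∧ T A B m (a m) = a m := by
  have key : ∃ m, seq A B x (m + 1) = seq A B x m := by
    by_contra hcon
    push Not at hcon
    have hinj : Function.Injective (seq A B x) := by
      intro i j hij
      by_contra hne
      rcases Nat.lt_or_gt_of_ne hne with h | h
      · refine seq_ne hA hB hx (m := j) (fun i _ => hcon i) (j - i) (by omega) i (by omega) ?_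
        rw [hij]
        congr 1
        omega
      · refine seq_ne hA hB hx (m := i) (fun i _ => hcon i) (i - j) (by omega) j (by omega) ?_
        rw [← hij]
        congr 1
        omega
    exact not_injective_infinite_finite _ hinj
  refine ⟨Nat.find key, seq A B x, rfl, ?_, fun i _ => rfl, Nat.find_spec key⟩
  have hm : ∀ i < Nat.find key, seq A B x (i + 1) ≠ seq A B x i := fun i hi => Nat.find_min key hi
  intro i hi j hj hij
  simp only [Set.mem_Iic] at hi hj
  by_contra hne
  rcases Nat.lt_or_gt_of_ne hne with h | h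
  · refine seq_ne hA hB hx hm (j - i) (by omega) i (by omega) ?_
    rw [hij]
    congr 1
    omega
  · refine seq_ne hA hB hx hm (i - j) (by omega) j (by omega) ?_
    rw [← hij]
    congr 1
    omega

/-- the data of a path -/
structure Path (A B : V → V) (x : V) (m : ℕ) (a : ℕ → V) : Prop where
  zero : a 0 = x
  inj : Set.InjOn a (Set.Iic m)
  step : ∀ i < m, a (i + 1) = T A B i (a i)
  last : T A B m (a m) = a m

namespace Path
variable {x : V} {m : ℕ} {a : ℕ → V}

lemma ne (h : Path A B x m a) {i j : ℕ} (hi : i ≤ m) (hj : j ≤ m) (hij : i ≠ j) : a i ≠ a j :=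
  fun he => hij (h.inj hi hj he)

lemma B_even (h : Path A B x m a) {i : ℕ} (hi : i < m) (he : i % 2 = 0) : B (a i) = a (i + 1) := by
  rw [h.step i hi]
  unfold T
  rw [if_pos (Nat.even_iff.2 he)]

lemma A_odd (h : Path A B x m a) {i : ℕ} (hi : i < m) (he : i % 2 = 1) : A (a i) = a (i + 1) := by
  rw [h.step i hi]
  unfold T
  rw [if_neg]
  rw [Nat.even_iff]
  omega

lemma B_odd (hB : ∀ v, B (B v) = v) (h : Path A B x m a) {i : ℕ} (hi : i ≤ m) (he : i % 2 = 1) :
    B (a i) = a (i - 1) := by
  have h1 : a i = B (a (i - 1)) := by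
    rw [h.B_even (i := i - 1) (by omega) (by omega)]
    congr 1
    omega
  rw [h1, hB]

lemma A_even (hA : ∀ v, A (A v) = v) (h : Path A B x m a) {i : ℕ} (hi : i ≤ m) (hi0 : 1 ≤ i)
    (he : i % 2 = 0) : A (a i) = a (i - 1) := by
  have h1 : a i = A (a (i - 1)) := by
    rw [h.A_odd (i := i - 1) (by omega) (by omega)]
    congr 1
    omega
  rw [h1, hA]

lemma last_even (h : Path A B x m a) (he : m % 2 = 0) : B (a m) = a m := by
  have := h.last
  unfold T at this
  rwa [if_pos (Nat.even_iff.2 he)] at this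

lemma last_odd (h : Path A B x m a) (he : m % 2 = 1) : A (a m) = a m := by
  have := h.last
  unfold T at this
  rwa [if_neg (by rw [Nat.even_iff]; omega)] at this

lemma A_mem (hA : ∀ v, A (A v) = v) (hx : A x = x) (h : Path A B x m a) {i : ℕ} (hi : i ≤ m) :
    ∃ j ≤ m, A (a i) = a j := by
  rcases Nat.mod_two_eq_zero_or_one i with he | he
  · rcases Nat.eq_zero_or_pos i with rfl | hi0
    · exact ⟨0, hi, by rw [h.zero, hx]⟩
    · exact ⟨i - 1, by omega, h.A_even hA hi hi0 he⟩
  · rcases hi.lt_or_eq with hi | rfl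
    · exact ⟨i + 1, by omega, h.A_odd hi he⟩
    · exact ⟨i, le_rfl, h.last_odd he⟩

lemma B_mem (hB : ∀ v, B (B v) = v) (h : Path A B x m a) {i : ℕ} (hi : i ≤ m) :
    ∃ j ≤ m, B (a i) = a j := by
  rcases Nat.mod_two_eq_zero_or_one i with he | he
  · rcases hi.lt_or_eq with hi | rfl
    · exact ⟨i + 1, by omega, h.B_even hi he⟩
    · exact ⟨i, le_rfl, h.last_even he⟩
  · exact ⟨i - 1, by omega, h.B_odd hB hi he⟩

/-- fixed points of `B` on the path -/
lemma B_fix (hB : ∀ v, B (B v) = v) (h : Path A B x m a) {i : ℕ} (hi : i ≤ m)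
    (hf : B (a i) = a i) : i = m ∧ m % 2 = 0 := by
  rcases Nat.mod_two_eq_zero_or_one i with he | he
  · rcases hi.lt_or_eq with hi | rfl
    · rw [h.B_even hi he] at hf
      exact absurd hf (h.ne (by omega) (by omega) (by omega))
    · exact ⟨rfl, he⟩
  · rw [h.B_odd hB hi he] at hf
    exact absurd hf (h.ne (by omega) (by omega) (by omega))

/-- the vertices of the path -/
noncomputable def K (a : ℕ → V) (m : ℕ) : Finset V := (range (m + 1)).image a

lemma mem_K {v : V} : v ∈ K a m ↔ ∃ i ≤ m, a i = v := by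
  unfold K
  simp only [mem_image, mem_range]
  constructor
  · rintro ⟨i, hi, h⟩
    exact ⟨i, by omega, h⟩
  · rintro ⟨i, hi, h⟩
    exact ⟨i, by omega, h⟩

lemma K_A (hA : ∀ v, A (A v) = v) (hx : A x = x) (h : Path A B x m a) : ∀ v ∈ K a m, A v ∈ K a m := by
  intro v hv
  obtain ⟨i, hi, rfl⟩ := mem_K.1 hv
  obtain ⟨j, hj, he⟩ := h.A_mem hA hx hi
  exact mem_K.2 ⟨j, hj, he.symm⟩

lemma K_B (hB : ∀ v, B (B v) = v) (h : Path A B x m a) : ∀ v ∈ K a m, B v ∈ K a m := by
  intro v hv
  obtain ⟨i, hi, rfl⟩ := mem_K.1 hv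
  obtain ⟨j, hj, he⟩ := h.B_mem hB hi
  exact mem_K.2 ⟨j, hj, he.symm⟩

/-- the reversed path is alternating for `B` -/
lemma alt_rev (hA : IsMatching G A) (hB : IsMatching G B) (h : Path A B x m a) (hm : m % 2 = 0) :
    Alt G B (fun i => a (m - i)) (m / 2) := by
  have hm2 : 2 * (m / 2) = m := by omega
  refine Alt.of_even hB ?_ ?_ ?_ ?_
  · intro i hi j hj hij
    simp only [Set.mem_Iic] at hi hj
    have := h.inj (by simp only [Set.mem_Iic]; omega) (by simp only [Set.mem_Iic]; omega) hij
    omega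
  · simpa using h.last_even hm
  · intro j hj
    rw [h.B_odd hB.1 (by omega) (by omega)]
    congr 1
  · intro j hj
    have h1 : a (m - 2 * j) = A (a (m - (2 * j + 1))) := by
      rw [h.A_odd (i := m - (2 * j + 1)) (by omega) (by omega)]
      congr 1
      omega
    have h2 : A (a (m - (2 * j + 1))) ≠ a (m - (2 * j + 1)) := by
      rw [← h1]
      exact h.ne (by omega) (by omega) (by omega)
    rw [h1]
    exact (hA.2 _ h2).symm

end Path

lemma exists_path' (hA : ∀ v, A (A v) = v) (hB : ∀ v, B (B v) = v) {x : V} (hx : A x = x) :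
    ∃ (m : ℕ) (a : ℕ → V), Path A B x m a := by
  obtain ⟨m, a, h1, h2, h3, h4⟩ := exists_path hA hB hx
  exact ⟨m, a, h1, h2, h3, h4⟩

end paths

end Pool.Agent.X185.FD
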