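import Pool.Agent.X185.FD.Inner

set_option autoImplicit false
set_option linter.unusedSectionVars false
set_option linter.unusedVariables false
set_option linter.unusedSimpArgs false

namespace Pool.Agent.X185.FD

open Finset Function
open scoped Classical

variable {V : Type*} [Fintype V] {G : SimpleGraph V} {M N : V → V}
variable {f : ℕ → V} {l t : ℕ} {C : Set (Sym2 V)}

/-- some maximum matching exposes the vertex -/
def Exposable (G : SimpleGraph V) (v : V) : Prop := ∃ M, IsMaximum G M ∧ M v = v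

lemma adj_outer (hG : RDisjoint G) {v y : V} (hv : v ∈ reach G C) (he : Exposable G v)
    (hadj : G.Adj v y) : y ∈ reach G C := by
  obtain ⟨M, f, l, t, hM, h, i, hi, rfl⟩ := hv
  by_cases ho : i % 2 = 0 ∨ 2 * l ≤ i
  · obtain ⟨M', g, l', t', h1, h2, h3, -⟩ := h.good hG hM hi ho
    refine h2.adj_root h1 ?_
    rwa [h3]
  · exfalso
    push Not at ho
    obtain ⟨j, rfl⟩ : ∃ j, i = 2 * j + 1 := ⟨i / 2, by omega⟩
    obtain ⟨N, hN, hN2⟩ := he
    exact h.inner hG hM (j := j) (by omega) hN hN2

lemma inner_root (hG : RDisjoint G) {v : V} (hv : v ∈ reach G C) (he : ¬ Exposable G v) :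
    v ∉ cyc C ∧ ∃ (M : V → V) (f : ℕ → V) (l t : ℕ), IsMaximum G M ∧ IsFlower G M f l t C ∧
      1 ≤ l ∧ f 1 = v := by
  obtain ⟨M, f, l, t, hM, h, i, hi, rfl⟩ := hv
  have ho : ¬ (i % 2 = 0 ∨ 2 * l ≤ i) := by
    intro ho
    obtain ⟨M', h1, h2, -⟩ := h.exposed hM hi ho
    exact he ⟨M', h1, h2⟩
  push Not at ho
  obtain ⟨j, rfl⟩ : ∃ j, i = 2 * j + 1 := ⟨i / 2, by omega⟩
  refine ⟨?_, ?_⟩
  · rw [h.mem_cyc]
    rintro ⟨k, hk1, hk2, hk3⟩
    exact h.alt.ne (by omega) (by omega) (by omega) hk3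
  · obtain ⟨M', h1, h2, -⟩ := h.shift hM (j := j) (by omega)
    exact ⟨M', _, _, _, h1, h2, by omega, rfl⟩

lemma exists_base (hG : RDisjoint G) (hC : IsOddCycle G C) :
    ∃ (M : V → V) (f : ℕ → V) (t : ℕ), IsMaximum G M ∧ IsFlower G M f 0 t C := by
  obtain ⟨v, M, f, l, t, hM, h, -⟩ := hG.2.1 C hC
  obtain ⟨M', h1, h2, -⟩ := h.shift hM (j := l) le_rfl
  rw [Nat.sub_self] at h2
  exact ⟨M', _, _, h1, h2⟩

/-- the exposable vertices of the reach set outside the cycle -/
noncomputable def SS (G : SimpleGraph V) (C : Set (Sym2 V)) : Finset V :=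
  univ.filter fun v => v ∈ reach G C ∧ Exposable G v ∧ v ∉ cyc C

/-- the vertices of the reach set that are not exposable -/
noncomputable def II (G : SimpleGraph V) (C : Set (Sym2 V)) : Finset V :=
  univ.filter fun v => v ∈ reach G C ∧ ¬ Exposable G v

lemma mem_SS {v : V} : v ∈ SS G C ↔ v ∈ reach G C ∧ Exposable G v ∧ v ∉ cyc C := by
  unfold SS
  rw [mem_filter]
  exact ⟨fun h => h.2, fun h => ⟨mem_univ _, h⟩⟩

lemma mem_II {v : V} : v ∈ II G C ↔ v ∈ reach G C ∧ ¬ Exposable G v := by
  unfold II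
  rw [mem_filter]
  exact ⟨fun h => h.2, fun h => ⟨mem_univ _, h⟩⟩

lemma card_II_le (hG : RDisjoint G) (hC : IsOddCycle G C) : (II G C).card ≤ (SS G C).card := by
  obtain ⟨N, f, t, hN, hf⟩ := exists_base hG hC
  refine card_le_card_of_injOn N ?_ ?_
  · intro v hv
    have hv' := mem_II.1 (mem_coe.1 hv)
    obtain ⟨h1, M, g, l, s, hM, hg, hl, rfl⟩ := inner_root hG hv'.1 hv'.2
    have hex : Exposable G (N (g 1)) := hg.partner hG hM hl hN
    have hne : N (g 1) ≠ g 1 := fun h => hv'.2 ⟨N, hN, h⟩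
    refine mem_coe.2 (mem_SS.2 ⟨?_, hex, ?_⟩)
    · obtain ⟨Mu, hMu, hMu2⟩ := hex
      exact hg.adj_inner hG hM hl hMu hMu2 (hN.1.2 _ hne).symm
    · intro hcyc
      apply h1
      rw [hf.mem_cyc] at hcyc ⊢
      obtain ⟨i, hi1, hi2, hi3⟩ := hcyc
      have h2 := hf.alt.closed hN.1 (N (g 1)) ⟨i, hi2, hi3⟩
      rw [hN.1.1] at h2
      obtain ⟨k, hk1, hk2⟩ := h2
      exact ⟨k, by omega, hk1, hk2⟩
  · intro v _ w _ h
    exact hN.1.inj h

lemma SS_adj (hG : RDisjoint G) (hC : IsOddCycle G C) {x x' : V} (hx : x ∈ SS G C)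
    (hadj : G.Adj x x') : x' ∈ II G C := by
  obtain ⟨h1, h2, h3⟩ := mem_SS.1 hx
  refine mem_II.2 ⟨adj_outer hG h1 h2 hadj, ?_⟩
  rintro ⟨M', hM', hx'⟩
  obtain ⟨M, hM, hMx⟩ := h2
  obtain ⟨a, t', a1, a2, a3, a4⟩ := common hM hMx hM' hx' hadj
  have hC' : cycleEdges a 0 (2 * t') = C := by
    refine hG.eq_of_mem a1.isOddCycle hC (v := x) ?_ h1
    exact ⟨M, a, 0, t', hM, a1, 0, by omega, a2⟩
  apply h3
  rw [← hC', a1.mem_cyc]
  exact ⟨0, by omega, by omega, a2⟩

lemma perm_SS (hG : RDisjoint G) (hC : IsOddCycle G C) (π : Equiv.Perm V)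
    (hπ : ∀ v, G.Adj v (π v)) : (SS G C).image π = II G C := by
  have hsub : (SS G C).image π ⊆ II G C := by
    intro v hv
    obtain ⟨x, hx, rfl⟩ := mem_image.1 hv
    exact SS_adj hG hC hx (hπ x)
  refine eq_of_subset_of_card_le hsub ?_
  rw [card_image_of_injective _ π.injective]
  exact card_II_le hG hC

/-- a permutation that moves every vertex to a neighbour preserves every reach set -/
theorem perm_reach (hG : RDisjoint G) (hC : IsOddCycle G C) (π : Equiv.Perm V)
    (hπ : ∀ v, G.Adj v (π v)) {v : V} (hv : v ∈ reach G C) : π v ∈ reach G C := by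
  by_cases he : Exposable G v
  · exact adj_outer hG hv he (hπ v)
  · have hπ' : ∀ v, G.Adj v (π.symm v) := by
      intro v
      have := hπ (π.symm v)
      rw [Equiv.apply_symm_apply] at this
      exact this.symm
    have h1 : v ∈ (SS G C).image π.symm := by
      rw [perm_SS hG hC π.symm hπ']
      exact mem_II.2 ⟨hv, he⟩
    obtain ⟨x, hx, rfl⟩ := mem_image.1 h1
    rw [Equiv.apply_symm_apply]
    exact (mem_SS.1 hx).1

theorem perm_reach_iff (hG : RDisjoint G) (hC : IsOddCycle G C) (π : Equiv.Perm V)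
    (hπ : ∀ v, G.Adj v (π v)) {v : V} : π v ∈ reach G C ↔ v ∈ reach G C := by
  constructor
  · intro h
    have hπ' : ∀ v, G.Adj v (π.symm v) := by
      intro v
      have := hπ (π.symm v)
      rw [Equiv.apply_symm_apply] at this
      exact this.symm
    have := perm_reach hG hC π.symm hπ' h
    rwa [Equiv.symm_apply_apply] at this
  · exact perm_reach hG hC π hπ

/-- the class of a vertex in the flower decomposition -/
noncomputable def cls (G : SimpleGraph V) (v : V) : Option {C : Set (Sym2 V) // IsOddCycle G C} :=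
  if h : ∃ C : {C : Set (Sym2 V) // IsOddCycle G C}, v ∈ reach G C.1 then some h.choose else none

lemma cls_some (hG : RDisjoint G) {v : V} {C : {C : Set (Sym2 V) // IsOddCycle G C}} :
    cls G v = some C ↔ v ∈ reach G C.1 := by
  unfold cls
  constructor
  · intro h
    split at h
    · rename_i h1
      have := h1.choose_spec
      rw [Option.some.injEq] at h
      rwa [h] at this
    · exact absurd h (by simp)
  · intro h
    have h1 : ∃ C : {C : Set (Sym2 V) // IsOddCycle G C}, v ∈ reach G C.1 := ⟨C, h⟩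
    rw [dif_pos h1, Option.some.injEq]
    exact Subtype.ext (hG.eq_of_mem h1.choose.2 C.2 h1.choose_spec h)

lemma cls_none (hG : RDisjoint G) {v : V} :
    cls G v = none ↔ ∀ C, IsOddCycle G C → v ∉ reach G C := by
  constructor
  · intro h C hC hv
    have := (cls_some hG (C := ⟨C, hC⟩)).2 hv
    rw [h] at this
    exact absurd this (by simp)
  · intro h
    by_contra hne
    obtain ⟨C, hC⟩ := Option.ne_none_iff_exists'.1 hne
    exact h C.1 C.2 ((cls_some hG).1 hC)

/-- the bipartite part of the flower decomposition -/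
def rest (G : SimpleGraph V) : Set V := {v | ∀ C, IsOddCycle G C → v ∉ reach G C}

/-- the matrix with the entries between different classes removed -/
noncomputable def cut (G : SimpleGraph V) : Matrix V V ℝ :=
  Matrix.of fun v w => if cls G v = cls G w then G.adjMatrix ℝ v w else 0

lemma det_cut (hG : RDisjoint G) : (G.adjMatrix ℝ).det = (cut G).det := by
  rw [Matrix.det_apply, Matrix.det_apply]
  refine Finset.sum_congr rfl fun π _ => ?_
  congr 1
  by_cases hz : ∃ v, G.adjMatrix ℝ (π v) v = 0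
  · obtain ⟨v, hv⟩ := hz
    have e1 : ∏ i, G.adjMatrix ℝ (π i) i = 0 := Finset.prod_eq_zero (mem_univ v) hv
    have e2 : ∏ i, cut G (π i) i = 0 := by
      refine Finset.prod_eq_zero (mem_univ v) ?_
      unfold cut
      rw [Matrix.of_apply, hv, ite_self]
    rw [e1, e2]
  · push Not at hz
    have hπ : ∀ v, G.Adj v (π v) := by
      intro v
      have := hz v
      rw [SimpleGraph.adjMatrix_apply] at this
      by_contra hc
      rw [if_neg (fun h => hc h.symm)] at this
      exact this rfl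
    refine Finset.prod_congr rfl fun v _ => ?_
    have hcls : cls G (π v) = cls G v := by
      apply Option.ext
      intro C
      rw [cls_some hG, cls_some hG]
      exact perm_reach_iff hG C.2 π hπ
    unfold cut
    rw [Matrix.of_apply, if_pos hcls]

lemma block {n : ℕ} (b : V → Fin n) (hb : ∀ v w, b v = b w → cls G v = cls G w) (k : Fin n)
    (R : Set V) (hR : ∀ v, b v = k ↔ v ∈ R) :
    ((cut G).toSquareBlock b k).det = ((G.induce R).adjMatrix ℝ).det := by
  rw [← Matrix.det_submatrix_equiv_self (Equiv.subtypeEquivRight fun v => (hR v).symm)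
    ((cut G).toSquareBlock b k)]
  congr 1
  ext i j
  have hi : b i.1 = k := (hR _).2 i.2
  have hj : b j.1 = k := (hR _).2 j.2
  have h1 : cls G i.1 = cls G j.1 := hb _ _ (hi.trans hj.symm)
  change (cut G) i.1 j.1 = _
  unfold cut
  rw [Matrix.of_apply, if_pos h1, SimpleGraph.adjMatrix_apply, SimpleGraph.adjMatrix_apply]
  rfl

theorem det_eq (hG : RDisjoint G) :
    (G.adjMatrix ℝ).det = ((G.induce (rest G)).adjMatrix ℝ).det *
      ∏ C : {C : Set (Sym2 V) // IsOddCycle G C}, ((G.induce (reach G C.1)).adjMatrix ℝ).det := by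
  have e := Fintype.equivFin (Option {C : Set (Sym2 V) // IsOddCycle G C})
  set b : V → Fin (Fintype.card (Option {C : Set (Sym2 V) // IsOddCycle G C})) :=
    fun v => e (cls G v) with hb
  have hb' : ∀ v w, b v = b w → cls G v = cls G w := fun v w h => e.injective h
  have h2 : (cut G).BlockTriangular b := by
    intro i j hij
    unfold cut
    rw [Matrix.of_apply, if_neg]
    intro h
    rw [hb] at hij
    simp only [h] at hij
    exact lt_irrefl _ hij
  rw [det_cut hG, h2.det_fintype, ← Equiv.prod_comp e, Fintype.prod_option]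
  congr 1
  · refine block b hb' _ _ fun v => ?_
    rw [hb]
    simp only [EmbeddingLike.apply_eq_iff_eq]
    exact cls_none hG
  · refine Finset.prod_congr rfl fun C _ => ?_
    refine block b hb' _ _ fun v => ?_
    rw [hb]
    simp only [EmbeddingLike.apply_eq_iff_eq]
    exact cls_some hG

end Pool.Agent.X185.FD
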