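import Pool.Agent.X185.FD.Core

set_option autoImplicit false
set_option linter.unusedSectionVars false
set_option linter.unusedVariables false
set_option linter.unusedSimpArgs false

namespace Pool.Agent.X185.FD

open Finset Function
open scoped Classical

variable {V : Type*} [Fintype V] {G : SimpleGraph V} {M N : V → V}

lemma IsMaximum.card_le (hM : IsMaximum G M) (hN : IsMatching G N) (K : Finset V)
    (hKM : ∀ v ∈ K, M v ∈ K) (hKN : ∀ v ∈ K, N v ∈ K) :
    (K.filter fun v => M v = v).card ≤ (K.filter fun v => N v = v).card := by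
  obtain ⟨h1, h2⟩ := switch hM.1 hN K hKM hKN
  have := hM.2 _ h1
  omega

lemma IsMaximum.switch (hM : IsMaximum G M) (hN : IsMaximum G N) (K : Finset V)
    (hKM : ∀ v ∈ K, M v ∈ K) (hKN : ∀ v ∈ K, N v ∈ K) :
    IsMaximum G (fun v => if v ∈ K then N v else M v) := by
  obtain ⟨h1, h2⟩ := FD.switch hM.1 hN.1 K hKM hKN
  have h3 := hM.card_le hN.1 K hKM hKN
  have h4 := hN.card_le hM.1 K hKN hKM
  refine ⟨h1, fun N' hN' => ?_⟩
  have := hM.2 N' hN'
  omega

lemma Path.even_of_max {A B : V → V} (hA : IsMaximum G A) (hB : IsMaximum G B) {x : V}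
    (hx : A x = x) {m : ℕ} {a : ℕ → V} (h : Path A B x m a) : m % 2 = 0 := by
  have h1 := hA.card_le hB.1 (Path.K a m) (h.K_A hA.1.1 hx) (h.K_B hB.1.1)
  have h2 : 0 < ((Path.K a m).filter fun v => A v = v).card :=
    card_pos.2 ⟨x, mem_filter.2 ⟨Path.mem_K.2 ⟨0, Nat.zero_le _, h.zero⟩, hx⟩⟩
  obtain ⟨v, hv⟩ := card_pos.1 (h2.trans_le h1)
  rw [mem_filter] at hv
  obtain ⟨i, hi, rfl⟩ := Path.mem_K.1 hv.1
  exact (h.B_fix hB.1.1 hi hv.2).2

lemma Path.alt {A B : V → V} (hA : IsMatching G A) (hB : IsMatching G B) {x : V}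
    (hx : A x = x) {m : ℕ} {a : ℕ → V} (h : Path A B x m a) {n : ℕ} (hn : 2 * n ≤ m) :
    Alt G A a n := by
  refine Alt.of_even hA ?_ ?_ ?_ ?_
  · intro i hi j hj hij
    simp only [Set.mem_Iic] at hi hj
    exact h.inj (by simp only [Set.mem_Iic]; omega) (by simp only [Set.mem_Iic]; omega) hij
  · rw [h.zero, hx]
  · intro j hj
    exact h.A_odd (by omega) (by omega)
  · intro j hj
    have h1 : B (a (2 * j)) = a (2 * j + 1) := h.B_even (by omega) (by omega)
    have h2 : B (a (2 * j)) ≠ a (2 * j) := by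
      rw [h1]
      exact h.ne (by omega) (by omega) (by omega)
    rw [← h1]
    exact hB.2 _ h2

lemma Path.mem_closed {A B : V → V} {x : V} {m : ℕ} {a : ℕ → V} (h : Path A B x m a) (F : Set V)
    (hx : x ∈ F) (hA : ∀ v ∈ F, A v ∈ F) (hB : ∀ v ∈ F, B v ∈ F) : ∀ i ≤ m, a i ∈ F := by
  intro i
  induction i with
  | zero => intro _; rwa [h.zero]
  | succ i ih =>
    intro hi
    rw [h.step i (by omega)]
    unfold T
    split
    · exact hB _ (ih (by omega))
    · exact hA _ (ih (by omega))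

/-- Two adjacent vertices that are exposed by two maximum matchings lie on a blossom. -/
lemma common {M M' : V → V} {x x' : V} (hM : IsMaximum G M) (hx : M x = x)
    (hM' : IsMaximum G M') (hx' : M' x' = x') (hadj : G.Adj x x') :
    ∃ (a : ℕ → V) (t : ℕ), IsFlower G M a 0 t (cycleEdges a 0 (2 * t)) ∧ a 0 = x ∧
      a (2 * t) = x' ∧
      ∀ F : Set V, x ∈ F → (∀ v ∈ F, M v ∈ F) → (∀ v ∈ F, M' v ∈ F) → ∀ i ≤ 2 * t, a i ∈ F := by
  obtain ⟨m, a, h⟩ := exists_path' hM.1.1 hM'.1.1 hx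
  have hm := h.even_of_max hM hM' hx
  obtain ⟨t, rfl⟩ : ∃ t, m = 2 * t := ⟨m / 2, by omega⟩
  have hK : x' ∈ Path.K a (2 * t) := by
    by_contra hK
    have h1 := hM'.switch hM (Path.K a (2 * t)) (h.K_B hM'.1.1) (h.K_A hM.1.1 hx)
    refine h1.not_adj (x := x) (y := x') ?_ ?_ hadj
    · have : x ∈ Path.K a (2 * t) := Path.mem_K.2 ⟨0, Nat.zero_le _, h.zero⟩
      simp only [this, if_true]
      exact hx
    · simp only [hK, if_false]
      exact hx'
  obtain ⟨i, hi, he⟩ := Path.mem_K.1 hK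
  have h2 := (h.B_fix hM'.1.1 hi (by rw [he, hx'])).1
  subst h2
  have ht : 1 ≤ t := by
    rcases Nat.eq_zero_or_pos t with rfl | ht
    · exfalso
      have : a 0 = x' := he
      rw [h.zero] at this
      exact hadj.ne this
    · exact ht
  refine ⟨a, t, ⟨ht, ?_, ?_, ?_⟩, h.zero, he, h.mem_closed⟩
  · rw [Nat.zero_add]
    exact h.alt hM.1 hM'.1 hx le_rfl
  · rw [Nat.zero_add, he, Nat.mul_zero, h.zero]
    exact hadj.symm
  · rw [Nat.zero_add]

section flowers
variable {f : ℕ → V} {l t : ℕ} {C : Set (Sym2 V)}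

lemma IsFlower.isOddCycle (h : IsFlower G M f l t C) : IsOddCycle G C := by
  refine ⟨t, fun i => f (2 * l + i), h.pos, ?_, ?_, ?_, ?_⟩
  · intro i hi j hj hij
    simp only [Set.mem_Iic] at hi hj
    have := h.alt.inj (by simp only [Set.mem_Iic]; omega) (by simp only [Set.mem_Iic]; omega) hij
    omega
  · intro i hi
    exact h.alt.adj (2 * l + i) (by omega)
  · have h1 := h.close
    have e1 : 2 * l + 2 * t = 2 * (l + t) := by ring
    change G.Adj (f (2 * l + 2 * t)) (f (2 * l + 0))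
    rw [e1]
    exact h1
  · rw [cycleEdges_shift]
    have e1 : 2 * l + 2 * t = 2 * (l + t) := by ring
    rw [e1, Nat.add_zero]
    exact h.edges

lemma RDisjoint.eq_of_mem (hG : RDisjoint G) {C C' : Set (Sym2 V)} (hC : IsOddCycle G C)
    (hC' : IsOddCycle G C') {v : V} (h1 : v ∈ reach G C) (h2 : v ∈ reach G C') : C = C' := by
  by_contra hne
  exact (Set.disjoint_left.1 (hG.2.2 C C' hC hC' hne)) h1 h2

/-- the vertices of a path -/
def vs (p : ℕ → V) (n : ℕ) : Set V := {v | ∃ i ≤ 2 * n, p i = v}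

lemma IsFlower.mem_reach (hM : IsMaximum G M) (h : IsFlower G M f l t C) {v : V}
    (hv : v ∈ vs f (l + t)) : v ∈ reach G C := ⟨M, f, l, t, hM, h, hv⟩

lemma IsFlower.mem_cyc (h : IsFlower G M f l t C) {v : V} :
    v ∈ cyc C ↔ ∃ i, 2 * l ≤ i ∧ i ≤ 2 * (l + t) ∧ f i = v := by
  rw [h.edges]
  have := h.pos
  exact FD.mem_cyc (by omega)

lemma Alt.closed {p : ℕ → V} {n : ℕ} (hM : IsMatching G M) (h : Alt G M p n) :
    ∀ v ∈ vs p n, M v ∈ vs p n := by
  rintro v ⟨i, hi, rfl⟩
  rcases Nat.even_or_odd' i with ⟨j, rfl | rfl⟩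
  · rcases Nat.eq_zero_or_pos j with rfl | hj
    · exact ⟨0, by omega, h.start.symm⟩
    · obtain ⟨j, rfl⟩ : ∃ k, j = k + 1 := ⟨j - 1, by omega⟩
      exact ⟨2 * j + 1, by omega, (h.mat' hM (by omega)).symm⟩
  · exact ⟨2 * j + 2, by omega, (h.mat j (by omega)).symm⟩

lemma closed_of_off {M M' : V → V} (hM : IsMatching G M) (hM' : IsMatching G M') {F : Set V}
    (hF : ∀ v ∈ F, M v ∈ F) (hoff : ∀ v, v ∉ F → M' v = M v) : ∀ v ∈ F, M' v ∈ F := by
  intro v hv
  by_contra h
  have h1 := hoff _ h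
  rw [hM'.1] at h1
  have h2 := hF v hv
  rw [h1, hM.1] at h2
  exact h h2

lemma IsFlower.shift (hM : IsMaximum G M) (h : IsFlower G M f l t C) {j : ℕ} (hj : j ≤ l) :
    ∃ M', IsMaximum G M' ∧ IsFlower G M' (fun i => f (2 * j + i)) (l - j) t C ∧
      ∀ v, (∀ i ≤ 2 * j, v ≠ f i) → M' v = M v := by
  obtain ⟨M', h1, h2, h3, h4⟩ := (h.alt.mono (m := j) (by omega)).slide hM
  refine ⟨M', h1, ⟨h.pos, ?_, ?_, ?_⟩, h4⟩
  · constructor
    · intro i hi k hk hik
      simp only [Set.mem_Iic] at hi hk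
      have := h.alt.inj (by simp only [Set.mem_Iic]; omega) (by simp only [Set.mem_Iic]; omega) hik
      omega
    · exact h2
    · intro i hi
      change M' (f (2 * j + (2 * i + 1))) = f (2 * j + (2 * i + 2))
      rw [h4 _ (fun k hk => h.alt.ne (by omega) (by omega) (by omega))]
      have h5 := h.alt.mat (j + i) (by omega)
      have e1 : 2 * j + (2 * i + 1) = 2 * (j + i) + 1 := by ring
      have e2 : 2 * j + (2 * i + 2) = 2 * (j + i) + 2 := by ring
      rw [e1, e2, h5]
    · intro i hi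
      exact h.alt.adj (2 * j + i) (by omega)
  · have e1 : 2 * j + 2 * (l - j + t) = 2 * (l + t) := by omega
    have e2 : 2 * j + 2 * (l - j) = 2 * l := by omega
    change G.Adj (f (2 * j + 2 * (l - j + t))) (f (2 * j + 2 * (l - j)))
    rw [e1, e2]
    exact h.close
  · have e1 : 2 * j + 2 * (l - j + t) = 2 * (l + t) := by omega
    have e2 : 2 * j + 2 * (l - j) = 2 * l := by omega
    rw [cycleEdges_shift, e1, e2]
    exact h.edges

lemma Alt.reverse {g : ℕ → V} {t : ℕ} (hM : IsMatching G M) (h : Alt G M g t)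
    (hc : G.Adj (g (2 * t)) (g 0)) :
    Alt G M (fun i => if i = 0 then g 0 else g (2 * t + 1 - i)) t := by
  refine Alt.of_even hM ?_ ?_ ?_ ?_
  · intro i hi j hj hij
    simp only [Set.mem_Iic] at hi hj
    by_cases hi0 : i = 0
    · by_cases hj0 : j = 0
      · omega
      · simp only [hi0, hj0, if_true, if_false] at hij
        exact absurd hij (h.ne (by omega) (by omega) (by omega))
    · by_cases hj0 : j = 0
      · simp only [hi0, hj0, if_true, if_false] at hij
        exact absurd hij (h.ne (by omega) (by omega) (by omega))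
      · simp only [hi0, hj0, if_false] at hij
        have := h.inj (by simp only [Set.mem_Iic]; omega) (by simp only [Set.mem_Iic]; omega) hij
        omega
  · simpa using h.start
  · intro j hj
    have h1 : ¬ (2 * j + 1 = 0) := by omega
    have h2 : ¬ (2 * j + 2 = 0) := by omega
    simp only [h1, h2, if_false]
    have h3 := h.mat' hM (j := t - j - 1) (by omega)
    have e1 : 2 * t + 1 - (2 * j + 1) = 2 * (t - j - 1) + 2 := by omega
    have e2 : 2 * t + 1 - (2 * j + 2) = 2 * (t - j - 1) + 1 := by omega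
    rw [e1, e2, h3]
  · intro j hj
    rcases Nat.eq_zero_or_pos j with rfl | hj0
    · simpa using hc.symm
    · have h1 : ¬ (2 * j + 1 = 0) := by omega
      have h2 : ¬ (2 * j = 0) := by omega
      simp only [h1, h2, if_false]
      have h3 := h.adj (2 * t - 2 * j) (by omega)
      have e1 : 2 * t + 1 - (2 * j + 1) = 2 * t - 2 * j := by omega
      have e2 : 2 * t + 1 - 2 * j = 2 * t - 2 * j + 1 := by omega
      rw [e1, e2]
      exact h3.symm

/-- the even vertices and the blossom vertices of a flower are exposed by maximum matchings -/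
lemma IsFlower.exposed (hM : IsMaximum G M) (h : IsFlower G M f l t C) {r : ℕ}
    (hr : r ≤ 2 * (l + t)) (ho : r % 2 = 0 ∨ 2 * l ≤ r) :
    ∃ M', IsMaximum G M' ∧ M' (f r) = f r ∧ ∀ v, v ∉ vs f (l + t) → M' v = M v := by
  by_cases he : r % 2 = 0
  · obtain ⟨j, rfl⟩ : ∃ j, r = 2 * j := ⟨r / 2, by omega⟩
    obtain ⟨M', h1, h2, h3, h4⟩ := (h.alt.mono (m := j) (by omega)).slide hM
    refine ⟨M', h1, h2, fun v hv => h4 v fun i hi he => hv ⟨i, by omega, he.symm⟩⟩
  · have hr2 : 2 * l ≤ r := by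
      rcases ho with ho | ho
      · exact absurd ho he
      · exact ho
    obtain ⟨M₁, h1, h2, h3⟩ := h.shift hM (j := l) le_rfl
    have e0 : l - l = 0 := by omega
    rw [e0] at h2
    have h4 : Alt G M₁ (fun i => f (2 * l + i)) t := by
      have := h2.alt
      rwa [Nat.zero_add] at this
    have h5 : G.Adj (f (2 * l + 2 * t)) (f (2 * l + 0)) := by
      have := h2.close
      rwa [Nat.zero_add] at this
    have h6 := h4.reverse h1.1 h5
    obtain ⟨M', k1, k2, k3, k4⟩ := (h6.mono (m := (2 * t + 1 + 2 * l - r) / 2) (by omega)).slide h1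
    have hn : 2 * ((2 * t + 1 + 2 * l - r) / 2) = 2 * t + 1 + 2 * l - r := by omega
    rw [hn] at k2 k4
    have h7 : ¬ (2 * t + 1 + 2 * l - r = 0) := by omega
    simp only [h7, if_false] at k2
    have e1 : 2 * l + (2 * t + 1 - (2 * t + 1 + 2 * l - r)) = r := by omega
    rw [e1] at k2
    refine ⟨M', k1, k2, ?_⟩
    intro v hv
    rw [k4 v, h3 v]
    · intro i hi he
      exact hv ⟨i, by omega, he.symm⟩
    · intro i hi he
      by_cases hi0 : i = 0
      · simp only [hi0, if_true] at he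
        exact hv ⟨2 * l + 0, by omega, he.symm⟩
      · simp only [hi0, if_false] at he
        exact hv ⟨2 * l + (2 * t + 1 - i), by omega, he.symm⟩

/-- every even vertex and every blossom vertex of a flower is the root of a flower -/
lemma IsFlower.good (hG : RDisjoint G) (hM : IsMaximum G M) (h : IsFlower G M f l t C) {r : ℕ}
    (hr : r ≤ 2 * (l + t)) (ho : r % 2 = 0 ∨ 2 * l ≤ r) :
    ∃ (M' : V → V) (g : ℕ → V) (l' t' : ℕ), IsMaximum G M' ∧ IsFlower G M' g l' t' C ∧
      g 0 = f r ∧ (∀ i ≤ 2 * (l' + t'), g i ∈ vs f (l + t)) ∧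
      ∀ v, v ∉ vs f (l + t) → M' v = M v := by
  by_cases hr2 : 2 * l ≤ r
  · obtain ⟨M₁, h1, h2, h3⟩ := h.exposed hM hr ho
    obtain ⟨r', hr', hr'2, hadj⟩ : ∃ r', r' ≤ 2 * (l + t) ∧ 2 * l ≤ r' ∧ G.Adj (f r) (f r') := by
      rcases hr.lt_or_eq with hlt | heq
      · exact ⟨r + 1, by omega, by omega, h.alt.adj r hlt⟩
      · exact ⟨2 * l, by omega, le_rfl, by rw [heq]; exact h.close⟩
    obtain ⟨M₂, k1, k2, k3⟩ := h.exposed hM hr' (Or.inr hr'2)
    obtain ⟨a, t', a1, a2, a3, a4⟩ := common h1 h2 k1 k2 hadj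
    have hcl := h.alt.closed hM.1
    have hC : cycleEdges a 0 (2 * t') = C := by
      refine hG.eq_of_mem a1.isOddCycle h.isOddCycle (v := f r) ?_ ?_
      · exact ⟨M₁, a, 0, t', h1, a1, 0, by omega, a2⟩
      · exact h.mem_reach hM ⟨r, hr, rfl⟩
    rw [hC] at a1
    refine ⟨M₁, a, 0, t', h1, a1, a2, ?_, h3⟩
    rw [Nat.zero_add]
    exact a4 _ ⟨r, hr, rfl⟩ (closed_of_off hM.1 h1.1 hcl h3) (closed_of_off hM.1 k1.1 hcl k3)
  · have he : r % 2 = 0 := by
      rcases ho with ho | ho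
      · exact ho
      · exact absurd ho hr2
    obtain ⟨j, rfl⟩ : ∃ j, r = 2 * j := ⟨r / 2, by omega⟩
    obtain ⟨M₁, h1, h2, h3⟩ := h.shift hM (j := j) (by omega)
    refine ⟨M₁, _, _, _, h1, h2, rfl, ?_, ?_⟩
    · intro i hi
      exact ⟨2 * j + i, by omega, rfl⟩
    · intro v hv
      exact h3 v fun i hi he => hv ⟨i, by omega, he.symm⟩

/-- the sequence `u, y, f 0, f 1, ...` -/
def cons2 (u y : V) (f : ℕ → V) : ℕ → V
  | 0 => u
  | 1 => y
  | n + 2 => f n

lemma IsFlower.extend (hM : IsMaximum G M) (h : IsFlower G M f l t C) {y : V}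
    (hadj : G.Adj (f 0) y) (hy : y ∉ vs f (l + t)) :
    ∃ M', IsMaximum G M' ∧ IsFlower G M' (cons2 (M y) y f) (l + 1) t C ∧
      ∀ v, v ≠ f 0 → v ≠ y → v ≠ M y → M' v = M v := by
  have hcl := h.alt.closed hM.1
  have hMy : M y ∉ vs f (l + t) := by
    intro hc
    have := hcl _ hc
    rw [hM.1.1] at this
    exact hy this
  have hMy2 : M y ≠ y := by
    intro hc
    exact hM.not_adj h.alt.start hc hadj
  obtain ⟨M', h1, h2, h3, h4, h5⟩ := hM.slide h.alt.start hadj
  have hfy : ∀ i ≤ 2 * (l + t), f i ≠ y := fun i hi he => hy ⟨i, hi, he⟩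
  have hfMy : ∀ i ≤ 2 * (l + t), f i ≠ M y := fun i hi he => hMy ⟨i, hi, he⟩
  refine ⟨M', h1, ⟨h.pos, ?_, ?_, ?_⟩, h5⟩
  · refine Alt.of_even h1.1 ?_ ?_ ?_ ?_
    · intro i hi j hj hij
      simp only [Set.mem_Iic] at hi hj
      match i, j with
      | 0, 0 => rfl
      | 0, 1 => exact absurd hij hMy2
      | 0, j + 2 => exact absurd hij.symm (hfMy j (by omega))
      | 1, 0 => exact absurd hij.symm hMy2
      | 1, 1 => rfl
      | 1, j + 2 => exact absurd hij.symm (hfy j (by omega))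
      | i + 2, 0 => exact absurd hij (hfMy i (by omega))
      | i + 2, 1 => exact absurd hij (hfy i (by omega))
      | i + 2, j + 2 =>
        have hij' : f i = f j := hij
        have := h.alt.inj (by simp only [Set.mem_Iic]; omega) (by simp only [Set.mem_Iic]; omega) hij'
        omega
    · exact h4
    · intro j hj
      rcases Nat.eq_zero_or_pos j with rfl | hj0
      · exact h3
      · obtain ⟨j, rfl⟩ : ∃ k, j = k + 1 := ⟨j - 1, by omega⟩
        have e1 : 2 * (j + 1) + 1 = (2 * j + 1) + 2 := by ring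
        have e2 : 2 * (j + 1) + 2 = (2 * j + 2) + 2 := by ring
        rw [e1, e2]
        change M' (f (2 * j + 1)) = f (2 * j + 2)
        rw [h5 _ (h.alt.ne (by omega) (by omega) (by omega)) (hfy _ (by omega))
          (hfMy _ (by omega))]
        exact h.alt.mat j (by omega)
    · intro j hj
      rcases Nat.eq_zero_or_pos j with rfl | hj0
      · exact (hM.1.2 y hMy2).symm
      · obtain ⟨j, rfl⟩ : ∃ k, j = k + 1 := ⟨j - 1, by omega⟩
        have e1 : 2 * (j + 1) = (2 * j) + 2 := by ring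
        have e2 : 2 * (j + 1) + 1 = (2 * j + 1) + 2 := by ring
        rw [e2, e1]
        exact h.alt.adj (2 * j) (by omega)
  · have e1 : 2 * (l + 1 + t) = 2 * (l + t) + 2 := by ring
    have e2 : 2 * (l + 1) = 2 * l + 2 := by ring
    rw [e1, e2]
    exact h.close
  · have e1 : 2 * (l + 1 + t) = 2 + 2 * (l + t) := by ring
    have e2 : 2 * (l + 1) = 2 + 2 * l := by ring
    rw [e1, e2, ← cycleEdges_shift]
    have : (fun i => cons2 (M y) y f (2 + i)) = f := by
      funext i
      rw [Nat.add_comm]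
      rfl
    rw [this]
    exact h.edges

/-- all the neighbours of a root of a flower are in the reach set -/
lemma IsFlower.adj_root (hM : IsMaximum G M) (h : IsFlower G M f l t C) {y : V}
    (hadj : G.Adj (f 0) y) : y ∈ reach G C := by
  by_cases hy : y ∈ vs f (l + t)
  · exact h.mem_reach hM hy
  · obtain ⟨M', h1, h2, -⟩ := h.extend hM hadj hy
    exact h2.mem_reach h1 ⟨1, by omega, rfl⟩

/-- moving the root of a flower along an alternating path -/
lemma IsFlower.along (hM : IsMaximum G M) (h : IsFlower G M f l t C) {p : ℕ → V} {n : ℕ}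
    (hp : Alt G M p n) (hp0 : p 0 = f 0) (hoff : ∀ i, 1 ≤ i → i ≤ 2 * n → p i ∉ vs f (l + t)) :
    ∃ (M' : V → V) (g : ℕ → V) (l' : ℕ), IsMaximum G M' ∧ IsFlower G M' g l' t C ∧
      g 0 = p (2 * n) ∧ (∀ i ≤ 2 * (l' + t), g i ∈ vs f (l + t) ∪ vs p n) ∧
      ∀ v, v ∉ vs f (l + t) ∪ vs p n → M' v = M v := by
  induction n with
  | zero =>
    refine ⟨M, f, l, hM, h, hp0.symm, ?_, fun v _ => rfl⟩
    intro i hi
    exact Or.inl ⟨i, hi, rfl⟩
  | succ n ih =>
    obtain ⟨M₁, g, l', h1, h2, h3, h4, h5⟩ := ih (hp.mono (Nat.le_succ n))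
      (fun i h1 h2 => hoff i h1 (by omega))
    have hnot : ∀ k, 2 * n < k → k ≤ 2 * (n + 1) → p k ∉ vs f (l + t) ∪ vs p n := by
      intro k hk1 hk2 hc
      rcases hc with hc | ⟨i, hi, he⟩
      · exact hoff k (by omega) hk2 hc
      · exact hp.ne (by omega) (by omega) (by omega) he
    have hadj : G.Adj (g 0) (p (2 * n + 1)) := by
      rw [h3]
      exact hp.adj (2 * n) (by omega)
    have hy : p (2 * n + 1) ∉ vs g (l' + t) := by
      rintro ⟨i, hi, he⟩
      refine hnot (2 * n + 1) (by omega) (by omega) ?_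
      rw [← he]
      exact h4 i hi
    have hMy : M₁ (p (2 * n + 1)) = p (2 * n + 2) := by
      rw [h5 _ (hnot _ (by omega) (by omega))]
      exact hp.mat n (Nat.lt_succ_self n)
    obtain ⟨M₂, k1, k2, k3⟩ := h2.extend h1 hadj hy
    rw [hMy] at k2 k3
    have hsub : ∀ v, v ∈ vs f (l + t) ∪ vs p n → v ∈ vs f (l + t) ∪ vs p (n + 1) := by
      rintro v (hv | ⟨i, hi, he⟩)
      · exact Or.inl hv
      · exact Or.inr ⟨i, by omega, he⟩
    refine ⟨M₂, _, l' + 1, k1, k2, rfl, ?_, ?_⟩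
    · intro i hi
      match i with
      | 0 => exact Or.inr ⟨2 * n + 2, by omega, rfl⟩
      | 1 => exact Or.inr ⟨2 * n + 1, by omega, rfl⟩
      | i + 2 => exact hsub _ (h4 i (by omega))
    · intro v hv
      rw [k3 v, h5 v (fun hc => hv (hsub v hc))]
      · rintro rfl
        rw [h3] at hv
        exact hv (Or.inr ⟨2 * n, by omega, rfl⟩)
      · rintro rfl
        exact hv (Or.inr ⟨2 * n + 1, by omega, rfl⟩)
      · rintro rfl
        exact hv (Or.inr ⟨2 * n + 2, by omega, rfl⟩)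

/-- no maximum matching exposes an inner vertex of a stem -/
lemma IsFlower.inner (hG : RDisjoint G) (hM : IsMaximum G M) (h : IsFlower G M f l t C) {j : ℕ}
    (hj : j < l) (hN : IsMaximum G N) : N (f (2 * j + 1)) ≠ f (2 * j + 1) := by
  intro hfix
  obtain ⟨M₁, h1, h2, h3⟩ := h.shift hM (j := j) (by omega)
  have hadj : G.Adj (f (2 * j)) (f (2 * j + 1)) := h.alt.adj (2 * j) (by omega)
  obtain ⟨a, t', a1, a2, a3, a4⟩ := common h1 (x := f (2 * j)) h2.alt.start hN hfix hadj
  have hC : cycleEdges a 0 (2 * t') = C := by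
    refine hG.eq_of_mem a1.isOddCycle h.isOddCycle (v := f (2 * j)) ?_ ?_
    · exact ⟨M₁, a, 0, t', h1, a1, 0, by omega, a2⟩
    · exact h.mem_reach hM ⟨2 * j, by omega, rfl⟩
  rw [hC] at a1
  have h4 : f (2 * j + 1) ∈ cyc C := by
    rw [a1.mem_cyc]
    exact ⟨2 * t', by omega, by omega, a3⟩
  rw [h.mem_cyc] at h4
  obtain ⟨i, hi1, hi2, he⟩ := h4
  exact h.alt.ne (by omega) (by omega) (by omega) he

end flowers

end Pool.Agent.X185.FD
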