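import Pool.Agent.X185.FD.Flower

set_option autoImplicit false
set_option linter.unusedSectionVars false
set_option linter.unusedVariables false
set_option linter.unusedSimpArgs false

namespace Pool.Agent.X185.FD

open Finset Function
open scoped Classical

variable {V : Type*} [Fintype V] {G : SimpleGraph V} {M N : V → V}
variable {f : ℕ → V} {l t : ℕ} {C : Set (Sym2 V)}

lemma cycleEdges_congr {c c' : ℕ → V} {a b : ℕ} (hab : a ≤ b) (h : ∀ i, a ≤ i → i ≤ b → c i = c' i) :
    cycleEdges c a b = cycleEdges c' a b := by
  ext e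
  constructor
  · rintro (⟨i, h1, h2, rfl⟩ | rfl)
    · exact Or.inl ⟨i, h1, h2, by rw [h i h1 h2.le, h (i + 1) (by omega) (by omega)]⟩
    · exact Or.inr (by rw [h b hab le_rfl, h a le_rfl hab])
  · rintro (⟨i, h1, h2, rfl⟩ | rfl)
    · exact Or.inl ⟨i, h1, h2, by rw [h i h1 h2.le, h (i + 1) (by omega) (by omega)]⟩
    · exact Or.inr (by rw [h b hab le_rfl, h a le_rfl hab])

lemma Alt.congr {M M' : V → V} {p : ℕ → V} {n : ℕ} (h : Alt G M p n)
    (he : ∀ i ≤ 2 * n, M' (p i) = M (p i)) : Alt G M' p n where
  inj := h.inj
  start := by rw [he 0 (by omega), h.start]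
  mat := fun j hj => by rw [he _ (by omega), h.mat j hj]
  adj := h.adj

/-- an exposable vertex adjacent to an inner vertex of a stem lies in the reach set -/
lemma IsFlower.adj_inner (hG : RDisjoint G) (hM : IsMaximum G M) (h : IsFlower G M f l t C)
    (hl : 1 ≤ l) {Mu : V → V} {u : V} (hMu : IsMaximum G Mu) (hu : Mu u = u)
    (hadj : G.Adj u (f 1)) : u ∈ reach G C := by
  obtain ⟨m, a, ha⟩ := exists_path' hMu.1.1 hM.1.1 hu
  have hm := ha.even_of_max hMu hM hu
  have hcl := h.alt.closed hM.1
  by_cases hmeet : ∃ c, c ≤ m ∧ a c ∈ vs f (l + t)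
  · obtain ⟨c, ⟨hc1, hc2⟩, hcmin⟩ : ∃ c, (c ≤ m ∧ a c ∈ vs f (l + t)) ∧
        ∀ i < c, a i ∉ vs f (l + t) := by
      refine ⟨Nat.find hmeet, Nat.find_spec hmeet, fun i hi hc => ?_⟩
      have := (Nat.find_spec hmeet).1
      exact Nat.find_min hmeet hi ⟨by omega, hc⟩
    have hceven : c % 2 = 0 := by
      by_contra hodd
      have h1 : M (a c) = a (c - 1) := ha.B_odd hM.1.1 hc1 (by omega)
      have h2 := hcl _ hc2
      rw [h1] at h2
      exact hcmin (c - 1) (by omega) h2
    obtain ⟨r, hr, hfr⟩ := hc2
    by_cases ho : r % 2 = 0 ∨ 2 * l ≤ r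
    · obtain ⟨M₁, g, l', t', h1, h2, h3, h4, h5⟩ := h.good hG hM hr ho
      have hp : Alt G M₁ (fun i => a (c - i)) (c / 2) := by
        refine Alt.of_even h1.1 ?_ ?_ ?_ ?_
        · intro i hi j hj hij
          simp only [Set.mem_Iic] at hi hj
          have := ha.inj (by simp only [Set.mem_Iic]; omega) (by simp only [Set.mem_Iic]; omega) hij
          omega
        · have : a (c - 0) = g 0 := by rw [h3, hfr, Nat.sub_zero]
          change M₁ (a (c - 0)) = a (c - 0)
          rw [this]
          exact h2.alt.start
        · intro j hj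
          have h6 := hcmin (c - (2 * j + 1)) (by omega)
          rw [h5 _ h6, ha.B_odd hM.1.1 (by omega) (by omega)]
          congr 1
        · intro j hj
          have h6 : a (c - 2 * j) = Mu (a (c - (2 * j + 1))) := by
            rw [ha.A_odd (i := c - (2 * j + 1)) (by omega) (by omega)]
            congr 1
            omega
          have h7 : Mu (a (c - (2 * j + 1))) ≠ a (c - (2 * j + 1)) := by
            rw [← h6]
            exact ha.ne (by omega) (by omega) (by omega)
          rw [h6]
          exact (hMu.1.2 _ h7).symm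
      have hoff : ∀ i, 1 ≤ i → i ≤ 2 * (c / 2) → a (c - i) ∉ vs g (l' + t') := by
        rintro i hi1 hi2 ⟨k, hk, he⟩
        refine hcmin (c - i) (by omega) ?_
        rw [← he]
        exact h4 k hk
      obtain ⟨M₂, g₂, l₂, k1, k2, k3, -⟩ := h2.along h1 hp
        (by rw [h3, hfr, Nat.sub_zero]) hoff
      refine k2.mem_reach k1 ⟨0, by omega, ?_⟩
      rw [k3, ← ha.zero]
      congr 1
      omega
    · exfalso
      push Not at ho
      obtain ⟨j, rfl⟩ : ∃ j, r = 2 * j + 1 := ⟨r / 2, by omega⟩
      obtain ⟨M', k1, k2, -⟩ := (ha.alt hMu.1 hM.1 hu (n := c / 2) (by omega)).slide hMu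
      have e1 : 2 * (c / 2) = c := by omega
      rw [e1, ← hfr] at k2
      exact h.inner hG hM (j := j) (by omega) k1 k2
  · push Not at hmeet
    obtain ⟨M', k1, k2, k3, k4⟩ := (ha.alt_rev hMu.1 hM.1 hm).slide hM
    have e1 : m - 2 * (m / 2) = 0 := by omega
    rw [e1, ha.zero] at k2
    have hoff : ∀ i ≤ 2 * (l + t), M' (f i) = M (f i) := by
      intro i hi
      refine k4 _ fun k hk he => ?_
      exact hmeet (m - k) (by omega) ⟨i, hi, he⟩
    have hu' : ∀ i ≤ 2 * (l + t), u ≠ f i := by
      intro i hi he
      refine hmeet 0 (by omega) ⟨i, hi, ?_⟩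
      rw [ha.zero, he]
    have hpos := h.pos
    have hfl : IsFlower G M' (fun i => if i = 0 then u else f i) l t C := by
      refine ⟨h.pos, ?_, ?_, ?_⟩
      · refine ⟨?_, ?_, ?_, ?_⟩
        · intro i hi j hj hij
          simp only [Set.mem_Iic] at hi hj
          by_cases hi0 : i = 0
          · by_cases hj0 : j = 0
            · omega
            · simp only [hi0, hj0, if_true, if_false] at hij
              exact absurd hij (hu' j hj)
          · by_cases hj0 : j = 0
            · simp only [hi0, hj0, if_true, if_false] at hij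
              exact absurd hij.symm (hu' i hi)
            · simp only [hi0, hj0, if_false] at hij
              exact h.alt.inj hi hj hij
        · simpa using k2
        · intro j hj
          have h1 : ¬ (2 * j + 1 = 0) := by omega
          have h2 : ¬ (2 * j + 2 = 0) := by omega
          simp only [h1, h2, if_false]
          rw [hoff _ (by omega)]
          exact h.alt.mat j hj
        · intro i hi
          rcases Nat.eq_zero_or_pos i with rfl | hi0
          · simpa using hadj
          · have h1 : ¬ (i = 0) := by omega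
            have h2 : ¬ (i + 1 = 0) := by omega
            simp only [h1, h2, if_false]
            exact h.alt.adj i hi
      · have h1 : ¬ (2 * (l + t) = 0) := by omega
        have h2 : ¬ (2 * l = 0) := by omega
        simp only [h1, h2, if_false]
        exact h.close
      · rw [h.edges]
        refine cycleEdges_congr (by omega) fun i hi1 hi2 => ?_
        have h1 : ¬ (i = 0) := by omega
        simp only [h1, if_false]
    exact hfl.mem_reach k1 ⟨0, by omega, by simp⟩

/-- remove the edge at `y` from a matching -/
noncomputable def rem (M : V → V) (y : V) : V → V := fun v => if v = y ∨ v = M y then v else M v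

lemma rem_matching (hM : IsMatching G M) (y : V) : IsMatching G (rem M y) := by
  have hmem : ∀ v, (v = y ∨ v = M y) → (M v = y ∨ M v = M y) := by
    rintro v (rfl | rfl)
    · exact Or.inr rfl
    · exact Or.inl (hM.1 y)
  constructor
  · intro v
    unfold rem
    by_cases h : v = y ∨ v = M y
    · simp only [h, if_true]
    · have h' : ¬ (M v = y ∨ M v = M y) := by
        intro hc
        have := hmem _ hc
        rw [hM.1] at this
        exact h this
      simp only [h, h', if_false, hM.1]
  · intro v hv
    unfold rem at hv ⊢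
    by_cases h : v = y ∨ v = M y
    · simp only [h, if_true] at hv
      exact absurd rfl hv
    · simp only [h, if_false] at hv ⊢
      exact hM.2 v hv

lemma rem_uncovered (hM : IsMatching G M) {y : V} (hy : M y ≠ y) :
    uncovered (rem M y) = uncovered M + 2 := by
  unfold uncovered
  have h1 : (univ.filter fun v => rem M y v = v) = (univ.filter fun v => M v = v) ∪ {y, M y} := by
    ext v
    rw [mem_union, mem_filter, mem_filter, mem_insert, mem_singleton]
    by_cases h : v = y ∨ v = M y
    · have h' : rem M y v = v := by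
        unfold rem
        rw [if_pos h]
      exact ⟨fun _ => Or.inr h, fun _ => ⟨mem_univ _, h'⟩⟩
    · have h' : rem M y v = M v := by
        unfold rem
        rw [if_neg h]
      rw [h']
      exact ⟨fun hh => Or.inl hh, fun hh => hh.resolve_right h⟩
  rw [h1, card_union_of_disjoint, card_pair hy.symm]
  rw [Finset.disjoint_left]
  intro v hv hv2
  rw [mem_filter] at hv
  rw [mem_insert, mem_singleton] at hv2
  rcases hv2 with rfl | rfl
  · exact hy hv.2
  · have := hv.2
    rw [hM.1] at this
    exact hy this.symm

lemma rem_fix (M : V → V) (y : V) : rem M y y = y := by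
  unfold rem
  rw [if_pos (Or.inl rfl)]

lemma rem_fix' (M : V → V) (y : V) : rem M y (M y) = M y := by
  unfold rem
  rw [if_pos (Or.inr rfl)]

lemma rem_eq (M : V → V) {y v : V} (h1 : v ≠ y) (h2 : v ≠ M y) : rem M y v = M v := by
  unfold rem
  rw [if_neg]
  rintro (h | h)
  · exact h1 h
  · exact h2 h

/-- the partner of an inner vertex in any maximum matching is exposable -/
lemma IsFlower.partner (hG : RDisjoint G) (hM : IsMaximum G M) (h : IsFlower G M f l t C)
    (hl : 1 ≤ l) (hN : IsMaximum G N) : ∃ M', IsMaximum G M' ∧ M' (N (f 1)) = N (f 1) := by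
  have hpos := h.pos
  have hNy : N (f 1) ≠ f 1 := h.inner hG hM (j := 0) (by omega) hN
  have hMy : M (f 1) = f 2 := h.alt.mat 0 (by omega)
  have hMy2 : M (f 1) ≠ f 1 := by
    rw [hMy]
    exact h.alt.ne (by omega) (by omega) (by omega)
  have hA := rem_matching hN.1 (f 1)
  have hB := rem_matching hM.1 (f 1)
  obtain ⟨m, a, ha⟩ := exists_path' hA.1 hB.1 (rem_fix' N (f 1))
  have hy : ∀ i ≤ m, a i ≠ f 1 := by
    intro i
    induction i with
    | zero => intro _; rw [ha.zero]; exact hNy
    | succ i ih =>
      intro hi he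
      have h1 := ha.step i (by omega)
      refine ih (by omega) ?_
      rw [he] at h1
      have h2 : T (rem N (f 1)) (rem M (f 1)) i (f 1) = f 1 := by
        unfold T
        split
        · exact rem_fix _ _
        · exact rem_fix _ _
      have h3 := congrArg (T (rem N (f 1)) (rem M (f 1)) i) h1
      rw [T_inv hA.1 hB.1, h2] at h3
      exact h3.symm
  have hKA := ha.K_A hA.1 (rem_fix' N (f 1))
  have hKB := ha.K_B hB.1
  rcases Nat.mod_two_eq_zero_or_one m with hm | hm
  · -- even
    have key : ∀ M₁ : V → V, IsMaximum G M₁ →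
        (∀ i ≤ 2 * (m / 2), M₁ (a (m - i)) = rem M (f 1) (a (m - i))) →
        ∃ M', IsMaximum G M' ∧ M' (N (f 1)) = N (f 1) := by
      intro M₁ h1 h2
      obtain ⟨M', k1, k2, -⟩ := ((ha.alt_rev hA hB hm).congr h2).slide h1
      have e1 : m - 2 * (m / 2) = 0 := by omega
      rw [e1, ha.zero] at k2
      exact ⟨M', k1, k2⟩
    have hlast : rem M (f 1) (a m) = a m := ha.last_even hm
    by_cases hw : a m = f 2
    · obtain ⟨M₁, k1, k2, k3, k4, k5⟩ := hM.slide h.alt.start (h.alt.adj 0 (by omega))
      have hMy' : M (f (0 + 1)) = f 2 := hMy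
      rw [hMy'] at k4 k5
      refine key M₁ k1 ?_
      intro i hi
      by_cases hi0 : i = 0
      · subst hi0
        rw [Nat.sub_zero, hlast, hw]
        exact k4
      · have hne : ∀ v, rem M (f 1) v = v → a (m - i) ≠ v := by
          intro v hv he
          rw [← he] at hv
          have := (ha.B_fix hB.1 (by omega) hv).1
          omega
        have hne0 : a (m - i) ≠ f 0 := by
          refine hne _ ?_
          rw [rem_eq, h.alt.start]
          · exact h.alt.ne (by omega) (by omega) (by omega)
          · rw [hMy]
            exact h.alt.ne (by omega) (by omega) (by omega)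
        have hne1 : a (m - i) ≠ f 1 := hy _ (by omega)
        have hne2 : a (m - i) ≠ f 2 := by
          rw [← hw]
          exact ha.ne (by omega) (by omega) (by omega)
        rw [k5 _ hne0 hne1 hne2, rem_eq _ hne1 (by rw [hMy]; exact hne2)]
    · refine key M hM ?_
      intro i hi
      have hne1 : a (m - i) ≠ f 1 := hy _ (by omega)
      have hne2 : a (m - i) ≠ f 2 := by
        intro he
        have h1 : rem M (f 1) (a (m - i)) = a (m - i) := by
          rw [he, ← hMy]
          exact rem_fix' _ _
        have := (ha.B_fix hB.1 (by omega) h1).1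
        rw [this] at he
        exact hw he
      rw [rem_eq _ hne1 (by rw [hMy]; exact hne2)]
  · -- odd
    exfalso
    obtain ⟨h1, h2⟩ := switch hA hB (Path.K a m) hKA hKB
    have h3 : ((Path.K a m).filter fun v => rem M (f 1) v = v) = ∅ := by
      rw [filter_eq_empty_iff]
      intro v hv hf
      obtain ⟨i, hi, rfl⟩ := Path.mem_K.1 hv
      have := (ha.B_fix hB.1 hi hf).2
      omega
    have h4 : 2 ≤ ((Path.K a m).filter fun v => rem N (f 1) v = v).card := by
      have hsub : ({a 0, a m} : Finset V) ⊆ (Path.K a m).filter fun v => rem N (f 1) v = v := by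
        intro v hv
        rw [mem_insert, mem_singleton] at hv
        rw [mem_filter]
        rcases hv with rfl | rfl
        · refine ⟨Path.mem_K.2 ⟨0, by omega, rfl⟩, ?_⟩
          rw [ha.zero]
          exact rem_fix' _ _
        · exact ⟨Path.mem_K.2 ⟨m, le_rfl, rfl⟩, ha.last_odd hm⟩
      have := card_le_card hsub
      rwa [card_pair (ha.ne (by omega) (by omega) (by omega))] at this
    rw [h3, card_empty, rem_uncovered hN.1 hNy] at h2
    have hmax : IsMaximum G (fun v => if v ∈ Path.K a m then rem M (f 1) v else rem N (f 1) v) := by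
      refine ⟨h1, fun N' hN' => ?_⟩
      have := hN.2 N' hN'
      omega
    refine h.inner hG hM (j := 0) (by omega) hmax ?_
    have : f 1 ∉ Path.K a m := by
      intro hc
      obtain ⟨i, hi, he⟩ := Path.mem_K.1 hc
      exact hy i hi he
    change (if f 1 ∈ Path.K a m then rem M (f 1) (f 1) else rem N (f 1) (f 1)) = f 1
    rw [if_neg this]
    exact rem_fix _ _

end Pool.Agent.X185.FD
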